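import Pool.Agent.R882.UD
import Pool.Agent.R882.UC

/-!
# Viehweg's inequality for the images of nondegenerate complete intersections fibred by curves of
genus one

Let `V` be a component, of dimension `n + 1`, of the set of common zeros in the torus of a system `f`
of Laurent polynomials which is nondegenerate in the sense of Khovanskii, with arbitrary Newton
polytopes. Let `FineInt f` be the Fine interior of their Minkowski sum, and suppose that the image
of `V` in the torus whose characters are the integral vectors parallel to it has dimension `n`. Let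
`u`, `w 1, ..., w N` be integral vectors such that `u` and the `u + M w j` are in the Fine interior,
and such that the map `V ⇢ V'` given by the monomials `t j = x ^ w j` has an image `V'` of dimension
`n` and irreducible generic fibres; these fibres are curves of genus one. For example, `V` may be a
general hypersurface of multidegree `(2, 2, e 1, ..., e n)` in a product of projective lines,
`e i ≥ M + 2`.

Let `V ⇢ W` be any dominant rational map of finite degree (it is not assumed to be related to the
fibration), and let `s` be the degree over `W` of the image `W'` of `V` in `W × V'`.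

The theorem is about all fibrations `W → Y` (of smooth models; all rational maps `W ⇢ Y` onto
varieties are allowed) with generic fibre `F` and `κ(Y) ≥ 0`.

* If `s ≤ M + 1` and `K_F` is pseudo-effective then `κ(W) ≥ 0`.
* If `2 s ≤ M + 1` and `K_F` is pseudo-effective then `κ(W) ≥ n = dim W - 1`.
* If `2 s ≤ M + 1` then `κ(W) ≥ κ(F) + dim Y`, or `F` is of general type.

As `κ(Y)` and the variation `Var (W → Y)` are at most `dim Y`, the last part gives Viehweg's inequality
`κ(W) ≥ κ(F) + max (κ(Y), Var)` for all fibrations `W → Y` with `κ(Y) ≥ 0` whose fibres are not of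
general type; if `F` is of general type then it is the theorem of Kollár, which is not formalised.

Proof. By the proof of `MP_badc2d_ag.EllipticImages` of this team, `W` is uniruled or `κ(W) ≥ n` (or
`κ(W) ≥ 0`, in the first part). If `W` is uniruled then `κ(Y) = -∞` or `K_F` is not pseudo-effective:
suppose that `W` is dominated by the variety with the function field `C(t)`, where `C(t)` is algebraic
over `L = ℂ(W)`, let `E = ℂ(Y)`, and let `∂` be the derivation of `C(t)` over `C` with `∂ t = 1`. The
values of a pluricanonical form of `Y` on the derivations of `C(t)` which preserve `C`, one of them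
being `∂`, are polynomials in `t` with a zero of order at least two at infinity, hence zero; so `∂`
vanishes on `E`, and the same argument over the base field `E` shows that the canonical divisor of
the generic fibre is not pseudo-effective (`Pool/Agent/R882/UA.lean`, `UB.lean`).
-/

set_option autoImplicit false
set_option linter.overlappingInstances false
set_option maxHeartbeats 4000000
set_option synthInstance.maxHeartbeats 400000

open FF Module Pool.Agent Pool.Agent.W602.GT Pool.Agent.R885

namespace Pool.Agent.Results.MP_5c318e_ag.EllipticFibrationImages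

/-- The Laurent polynomials `f l` are nondegenerate: the initial parts `ini v (f l)` have linearly
independent logarithmic gradients at all their common zeros in the torus. -/
def Nondegenerate {r q : ℕ} (f : Fin q → (Fin r → ℤ) →₀ ℂ) : Prop :=
  ∀ v : Fin r → ℤ, ∀ c : Fin r → ℂ, (∀ i, c i ≠ 0) → (∀ l, ev c (ini v (f l)) = 0) →
    LinearIndependent ℂ fun l => gr c (ini v (f l))

/-- `x` is the generic point of a subvariety, with function field `K`, of the set of common zeros
of the `f l` in the torus `(ℂ^*) ^ r`. -/
def IsGenericPoint {K : Type} [Field K] [Algebra ℂ K] {r q : ℕ} (f : Fin q → (Fin r → ℤ) →₀ ℂ)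
    (x : Fin r → K) : Prop :=
  (∀ i, x i ≠ 0) ∧ (∀ l, ev x (f l) = 0) ∧ IntermediateField.adjoin ℂ (Set.range x) = ⊤

/-- The integral vector `u` is in the Fine interior. -/
def InFine {r q : ℕ} (f : Fin q → (Fin r → ℤ) →₀ ℂ) (u : Fin r → ℤ) : Prop :=
  (fun i => (u i : ℚ)) ∈ FineInt f

/-- The Kodaira dimension of the smooth projective varieties of dimension `n` over `k` with the
function field `K` is at least `h`. -/
def KappaGe (k K : Type) [Field k] [Field K] [Algebra k K] (n h : ℕ) : Prop :=
  KodGe k K n (fun _ => False) h

/-- The canonical divisor of the smooth projective varieties of dimension `n` over `k` with the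
function field `K` is pseudo-effective. -/
def IsPseudoEffective (k K : Type) [Field k] [Field K] [Algebra k K] (n : ℕ) : Prop :=
  Psef k K n (fun _ => False)

/-- **Viehweg's inequality for images of elliptic fibrations.** Let `V` be a component, of dimension
`n + 1`, of the set of common zeros of a nondegenerate system `f`, with function field `K` and generic
point `x`, and suppose that the image of `V` in the torus of the Fine interior has dimension `n`. Let
`u` and the `u + M w j` be in the Fine interior, let `t j` be the monomial with the exponent `w j`, and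
suppose that the map `V ⇢ V'` given by `t` has an image of dimension `n` and irreducible generic
fibres: the field `ℂ(t)` is algebraically closed in `K`. Let `V ⇢ W` be a dominant rational map of
finite degree, `L` the function field of `W`, and `s` the degree over `W` of the image of `V` in
`W × V'`, whose function field is `L(t)`. Let `W ⇢ Y` be a dominant rational map, given by the subfield
`E` of `L`, with `κ(Y) ≥ 0`, `d = dim Y`, and `F` its generic fibre, a variety of dimension `f'` over
`E` with the function field `L`.
If `s ≤ M + 1` and `K_F` is pseudo-effective then `κ(W) ≥ 0`. If `2 s ≤ M + 1` and `K_F` is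
pseudo-effective then `κ(W) ≥ n = dim W - 1`. If `2 s ≤ M + 1` then `κ(W) ≥ κ(F) + dim Y`, or `F` is of
general type. -/
theorem result {n q N M : ℕ} (hM : 1 ≤ M) {f : Fin q → (Fin (n + 1 + q) → ℤ) →₀ ℂ}
    (hf : Nondegenerate f) {K : Type} [Field K] [Algebra ℂ K] {x : Fin (n + 1 + q) → K}
    (hx : IsGenericPoint f x) (hK : Algebra.trdeg ℂ K = (n + 1 : ℕ))
    (hd : Algebra.trdeg ℂ (IntermediateField.adjoin ℂ {z : K | ∃ v ∈ dirs f, z = R885.mono x v}) =
      (n : ℕ)) {u : Fin (n + 1 + q) → ℤ} {w : Fin N → Fin (n + 1 + q) → ℤ} (hu : InFine f u)
    (hw : ∀ j, InFine f (u + (M : ℤ) • w j)) {t : Fin N → K}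
    (ht : ∀ j, t j = R885.mono x (w j))
    (hd' : Algebra.trdeg ℂ (IntermediateField.adjoin ℂ (Set.range t)) = (n : ℕ))
    (hcl : ∀ z : K, IsAlgebraic (IntermediateField.adjoin ℂ (Set.range t)) z →
      z ∈ IntermediateField.adjoin ℂ (Set.range t))
    (L : Type) [Field L] [Algebra ℂ L] [Algebra L K] [IsScalarTower ℂ L K]
    [FiniteDimensional L K] (E : IntermediateField ℂ L) [Algebra.EssFiniteType ℂ E] {d f' : ℕ}
    (hE : Algebra.trdeg ℂ E = d) (hF : Algebra.trdeg E L = f') (hY : KappaGe ℂ E d 0) :
    (Module.finrank L (IntermediateField.adjoin L (Set.range t)) ≤ M + 1 →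
      IsPseudoEffective E L f' → KappaGe ℂ L (n + 1) 0) ∧
    (2 * Module.finrank L (IntermediateField.adjoin L (Set.range t)) ≤ M + 1 →
      (IsPseudoEffective E L f' → KappaGe ℂ L (n + 1) n) ∧
      ∀ q : ℕ, KappaGe E L f' q → KappaGe ℂ L (n + 1) (q + d) ∨ q = f') := by
  classical
  have hess : Algebra.EssFiniteType ℂ K := by
    rw [← IntermediateField.fg_top_iff, ← hx.2.2]
    exact ⟨Finset.univ.image x, by rw [Finset.coe_image, Finset.coe_univ, Set.image_univ]⟩
  have hL : Algebra.trdeg ℂ L = (n + 1 : ℕ) := Pool.Agent.Y184.NT.trdeg_below (K := K) hK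
  have hessL : Algebra.EssFiniteType ℂ L := Pool.Agent.TH466.QG.ess_below (K := K)
  obtain ⟨h1, h2⟩ := Pool.Agent.R882.UD.elliptic_kod hM hf hx hK hd hu hw ht hd' hcl L
  have hdf : d + f' = n + 1 := by
    have h3 := trdeg_add_eq ℂ E (A := L)
    rw [hE, hF, hL] at h3
    exact_mod_cast h3
  have hkey : IsPseudoEffective E L f' → ¬ Pool.Agent.W619.PQ.IsUniruled ℂ L (n + 1) :=
    fun h4 h5 => Pool.Agent.R882.UA.fib_not hL h5 E hE hF hY h4
  refine ⟨fun hm h4 => (h1 hm).resolve_left (hkey h4), fun hm =>
    ⟨fun h4 => (h2 hm).resolve_left (hkey h4), fun q h4 => ?_⟩⟩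
  have h4' := psef_of_kodGe (Pool.Agent.R882.UA.kod_mono h4 (Nat.zero_le _))
  have h5 := (h2 hm).resolve_left (hkey h4')
  have hq : q ≤ f' := Pool.Agent.R882.UA.kod_le_dim hF h4
  by_cases hpq : q = f'
  · exact Or.inr hpq
  · left
    exact Pool.Agent.R882.UA.kod_mono h5 (by omega)

end Pool.Agent.Results.MP_5c318e_ag.EllipticFibrationImages
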